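import Pool.Agent.UDR57.Geo

/-!
Nine directions, quantised coordinates, and the counting lemmas.
-/

set_option autoImplicit false

namespace Pool.Agent.UDR57

open Real

/-- first coordinate of the direction vector -/
noncomputable def dc (d : Fin 9) : ℝ := Real.cos ((d : ℕ) * (π / 9))

/-- second coordinate of the direction vector -/
noncomputable def ds (d : Fin 9) : ℝ := Real.sin ((d : ℕ) * (π / 9))

/-- the quantised coordinate in direction `d` -/
noncomputable def zz (d : Fin 9) (X Y : ℝ) : ℤ := ⌊10000 * (X * dc d + Y * ds d)⌋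

theorem dcs (d : Fin 9) : dc d ^ 2 + ds d ^ 2 = 1 := by
  unfold dc ds
  rw [add_comm]
  exact Real.sin_sq_add_cos_sq _

theorem dir_inner (d e : Fin 9) (h : (e : ℕ) ≤ d) :
    dc d * dc e + ds d * ds e = Real.cos (((d : ℕ) - (e : ℕ) : ℕ) * (π / 9)) := by
  unfold dc ds
  rw [← Real.cos_sub]
  congr 1
  rw [Nat.cast_sub h]
  ring

theorem zz_diff (d : Fin 9) (X Y X' Y' : ℝ) :
    ((|zz d X' Y' - zz d X Y| : ℤ) : ℝ) <
      10000 * |(X' - X) * dc d + (Y' - Y) * ds d| + 1 := by
  have h1 := Int.floor_le (10000 * (X * dc d + Y * ds d))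
  have h2 := Int.lt_floor_add_one (10000 * (X * dc d + Y * ds d))
  have h3 := Int.floor_le (10000 * (X' * dc d + Y' * ds d))
  have h4 := Int.lt_floor_add_one (10000 * (X' * dc d + Y' * ds d))
  have h5 := le_abs_self ((X' - X) * dc d + (Y' - Y) * ds d)
  have h6 := neg_abs_le ((X' - X) * dc d + (Y' - Y) * ds d)
  rw [Int.cast_abs, Int.cast_sub]
  unfold zz
  rw [abs_lt]
  constructor <;> nlinarith

theorem zz_diff' (d : Fin 9) (X Y X' Y' : ℝ) :
    10000 * |(X' - X) * dc d + (Y' - Y) * ds d| <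
      ((|zz d X' Y' - zz d X Y| : ℤ) : ℝ) + 1 := by
  have h1 := Int.floor_le (10000 * (X * dc d + Y * ds d))
  have h2 := Int.lt_floor_add_one (10000 * (X * dc d + Y * ds d))
  have h3 := Int.floor_le (10000 * (X' * dc d + Y' * ds d))
  have h4 := Int.lt_floor_add_one (10000 * (X' * dc d + Y' * ds d))
  rw [Int.cast_abs, Int.cast_sub]
  unfold zz
  have h7 := le_abs_self ((⌊10000 * (X' * dc d + Y' * ds d)⌋ : ℝ) - ⌊10000 * (X * dc d + Y * ds d)⌋)
  have h8 := neg_abs_le ((⌊10000 * (X' * dc d + Y' * ds d)⌋ : ℝ) - ⌊10000 * (X * dc d + Y * ds d)⌋)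
  rcases abs_cases ((X' - X) * dc d + (Y' - Y) * ds d) with ⟨h5, -⟩ | ⟨h5, -⟩ <;>
  rw [h5] <;> nlinarith

theorem s_le_one (d : Fin 9) {a1 a2 : ℝ} (ha : a1 ^ 2 + a2 ^ 2 ≤ 1) :
    |a1 * dc d + a2 * ds d| ≤ 1 := by
  have h := pair_bound ha (dcs d) (dcs d)
  have h1 : dc d * dc d + ds d * ds d = 1 := by have := dcs d; nlinarith
  rw [h1, abs_one] at h
  have h0 := abs_nonneg (a1 * dc d + a2 * ds d)
  nlinarith

theorem zz_le (d : Fin 9) {X Y X' Y' : ℝ} (h : (X' - X) ^ 2 + (Y' - Y) ^ 2 ≤ 1) :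
    |zz d X' Y' - zz d X Y| ≤ 10000 := by
  have h1 := zz_diff d X Y X' Y'
  have h2 := s_le_one d h
  have h3 : ((|zz d X' Y' - zz d X Y| : ℤ) : ℝ) < ((10001 : ℤ) : ℝ) := by
    push_cast at h1 ⊢
    linarith
  have := Int.cast_lt.1 h3
  omega

theorem pair_far {a1 a2 : ℝ} (ha : a1 ^ 2 + a2 ^ 2 ≤ 1) (d e : Fin 9) (hlt : (e : ℕ) < d) :
    (|a1 * dc d + a2 * ds d| + |a1 * dc e + a2 * ds e|) ^ 2 ≤ 3.8794 ∧
      (2 ≤ (d : ℕ) - e → (d : ℕ) - e ≤ 7 →
        (|a1 * dc d + a2 * ds d| + |a1 * dc e + a2 * ds e|) ^ 2 ≤ 3.5322) := by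
  have h := pair_bound ha (dcs d) (dcs e)
  rw [dir_inner d e hlt.le] at h
  have hd := d.2
  obtain ⟨h1, h2⟩ := abs_cos_ninth ((d : ℕ) - e) (by omega) (by omega)
  constructor
  · norm_num at h1 ⊢; linarith
  · intro ha2 ha7
    have := h2 ha2 ha7
    norm_num at this ⊢; linarith

theorem dir_sum {X Y X' Y' : ℝ} (h : (X' - X) ^ 2 + (Y' - Y) ^ 2 ≤ 1) :
    ∑ d : Fin 9, (|zz d X' Y' - zz d X Y| - 9698).toNat ≤ 302 := by
  classical
  let s : Fin 9 → ℝ := fun d => |(X' - X) * dc d + (Y' - Y) * ds d|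
  let D : Fin 9 → ℤ := fun d => |zz d X' Y' - zz d X Y|
  have hD : ∀ d, ((D d : ℤ) : ℝ) < 10000 * s d + 1 := fun d => zz_diff d X Y X' Y'
  have hD1 : ∀ d, D d ≤ 10000 := fun d => zz_le d h
  have hact : ∀ d, 9698 < D d → 0.9698 < s d := by
    intro d hd
    have h1 : (9699 : ℤ) ≤ D d := by omega
    have h2 : ((9699 : ℤ) : ℝ) ≤ ((D d : ℤ) : ℝ) := Int.cast_le.2 h1
    have h3 := hD d
    push_cast at h2
    norm_num
    linarith
  have hpair0 : ∀ d e : Fin 9, (e : ℕ) < d → 9698 < D d → 9698 < D e →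
      ((d : ℕ) = e + 1 ∨ (d : ℕ) = e + 8) ∧ D d + D e ≤ 19698 := by
    intro d e hlt hd he
    obtain ⟨h1, h2⟩ := pair_far h d e hlt
    have a1 := hact d hd
    have a2 := hact e he
    have hdd := d.2
    constructor
    · by_contra hcon
      have h3 : (|(X' - X) * dc d + (Y' - Y) * ds d| + |(X' - X) * dc e + (Y' - Y) * ds e|) ^ 2 ≤
        3.5322 := h2 (by omega) (by omega)
      change (s d + s e) ^ 2 ≤ 3.5322 at h3
      norm_num at a1 a2 h3
      nlinarith
    · change (s d + s e) ^ 2 ≤ 3.8794 at h1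
      have h3 : s d + s e ≤ 1.96962 := by
        by_contra hcon
        push Not at hcon
        norm_num at hcon h1
        nlinarith
      have h4 := hD d
      have h5 := hD e
      have h6 : (((D d + D e : ℤ)) : ℝ) < ((19699 : ℤ) : ℝ) := by
        push_cast
        norm_num at h3
        linarith
      have := Int.cast_lt.1 h6
      omega
  have hpair : ∀ d e : Fin 9, d ≠ e → 9698 < D d → 9698 < D e →
      (((d : ℕ) = e + 1 ∨ (d : ℕ) = e + 8) ∨ ((e : ℕ) = d + 1 ∨ (e : ℕ) = d + 8)) ∧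
        D d + D e ≤ 19698 := by
    intro d e hne hd he
    rcases lt_or_gt_of_ne (fun h' => hne (Fin.ext h') : (d : ℕ) ≠ e) with hlt | hlt
    · obtain ⟨h1, h2⟩ := hpair0 e d hlt he hd
      exact ⟨Or.inr h1, by omega⟩
    · obtain ⟨h1, h2⟩ := hpair0 d e hlt hd he
      exact ⟨Or.inl h1, by omega⟩
  by_cases hex : ∃ d, 9698 < D d
  · obtain ⟨d, hd⟩ := hex
    by_cases hex2 : ∃ e, e ≠ d ∧ 9698 < D e
    · obtain ⟨e, hne, he⟩ := hex2
      rw [Fintype.sum_eq_add d e hne.symm]
      · have h1 := (hpair d e hne.symm hd he).2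
        have h2 : ((D d - 9698).toNat : ℤ) = D d - 9698 := Int.toNat_of_nonneg (by omega)
        have h3 : ((D e - 9698).toNat : ℤ) = D e - 9698 := Int.toNat_of_nonneg (by omega)
        change (D d - 9698).toNat + (D e - 9698).toNat ≤ 302
        omega
      · intro c hc
        change (D c - 9698).toNat = 0
        by_contra hcon
        have hc1 : 9698 < D c := by omega
        obtain ⟨p1, -⟩ := hpair c d hc.1 hc1 hd
        obtain ⟨p2, -⟩ := hpair c e hc.2 hc1 he
        obtain ⟨p3, -⟩ := hpair d e hne.symm hd he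
        have := c.2
        have := d.2
        have := e.2
        have q1 : (c : ℕ) ≠ d := fun h' => hc.1 (Fin.ext h')
        have q2 : (c : ℕ) ≠ e := fun h' => hc.2 (Fin.ext h')
        omega
    · push Not at hex2
      rw [Fintype.sum_eq_single d]
      · have := hD1 d
        change (D d - 9698).toNat ≤ 302
        omega
      · intro c hc
        have := hex2 c hc
        change (D c - 9698).toNat = 0
        omega
  · push Not at hex
    rw [Finset.sum_eq_zero]
    · norm_num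
    · intro d _
      have := hex d
      change (D d - 9698).toNat = 0
      omega

/-! ### Counting offsets -/

theorem emod_inj {z : ℤ} {j j' : ℕ} (hj : j < 18358) (hj' : j' < 18358)
    (h : (z + j) % 18358 = (z + j') % 18358) : j = j' := by
  omega

theorem kept_count (z : ℤ) :
    8660 ≤ ((Finset.range 18358).filter fun j : ℕ => (z + j) % 18358 < 8660).card := by
  have h : (Finset.range 8660).card ≤
      ((Finset.range 18358).filter fun j : ℕ => (z + j) % 18358 < 8660).card := by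
    apply Finset.card_le_card_of_injOn (fun ρ : ℕ => (((ρ : ℤ) - z) % 18358).toNat)
    · intro ρ hρ
      have hρ' : ρ < 8660 := Finset.mem_range.1 hρ
      simp only [Finset.coe_filter, Finset.mem_range, Set.mem_ofPred_eq]
      constructor
      · omega
      · have : (((((ρ : ℤ) - z) % 18358).toNat : ℕ) : ℤ) = ((ρ : ℤ) - z) % 18358 :=
          Int.toNat_of_nonneg (by omega)
        rw [this]
        omega
    · intro ρ hρ ρ' hρ' heq
      have h1 : ρ < 8660 := Finset.mem_range.1 hρ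
      have h2 : ρ' < 8660 := Finset.mem_range.1 hρ'
      simp only at heq
      omega
  simpa using h

theorem diff_count0 {z z' : ℤ} (h0 : z ≤ z') (hd : z' - z ≤ 10000) :
    ((Finset.range 18358).filter fun j : ℕ => (z + j) % 18358 < 8660 ∧ (z' + j) % 18358 < 8660 ∧
      (z + j) / 18358 % 2 ≠ (z' + j) / 18358 % 2).card ≤ (z' - z - 9698).toNat := by
  have h : ((Finset.range 18358).filter fun j : ℕ => (z + j) % 18358 < 8660 ∧
      (z' + j) % 18358 < 8660 ∧ (z + j) / 18358 % 2 ≠ (z' + j) / 18358 % 2).card ≤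
      (Finset.Ico (18358 - (z' - z)) 8660).card := by
    apply Finset.card_le_card_of_injOn (fun j : ℕ => (z + j) % 18358)
    · intro j hj
      simp only [Finset.coe_filter, Finset.mem_range, Set.mem_ofPred_eq] at hj
      obtain ⟨hj0, hj1, hj2, hj3⟩ := hj
      simp only [Finset.coe_Ico, Set.mem_Ico]
      constructor
      · by_contra hcon
        have : (z' + j) / 18358 = (z + j) / 18358 := by omega
        rw [this] at hj3
        exact hj3 rfl
      · exact hj1
    · intro j hj j' hj' heq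
      simp only [Finset.coe_filter, Finset.mem_range, Set.mem_ofPred_eq] at hj hj'
      exact emod_inj hj.1 hj'.1 heq
  rw [Int.card_Ico] at h
  refine h.trans (le_of_eq ?_)
  congr 1
  ring

theorem swap_filter (s : Finset ℕ) (z z' : ℤ) :
    (s.filter fun j : ℕ => (z + j) % 18358 < 8660 ∧ (z' + j) % 18358 < 8660 ∧
      (z + j) / 18358 % 2 ≠ (z' + j) / 18358 % 2) =
    (s.filter fun j : ℕ => (z' + j) % 18358 < 8660 ∧ (z + j) % 18358 < 8660 ∧
      (z' + j) / 18358 % 2 ≠ (z + j) / 18358 % 2) := by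
  apply Finset.filter_congr
  intro j _
  constructor
  · rintro ⟨h1, h2, h3⟩
    exact ⟨h2, h1, fun h' => h3 h'.symm⟩
  · rintro ⟨h1, h2, h3⟩
    exact ⟨h2, h1, fun h' => h3 h'.symm⟩

theorem diff_count {z z' : ℤ} (hd : |z' - z| ≤ 10000) :
    ((Finset.range 18358).filter fun j : ℕ => (z + j) % 18358 < 8660 ∧ (z' + j) % 18358 < 8660 ∧
      (z + j) / 18358 % 2 ≠ (z' + j) / 18358 % 2).card ≤ (|z' - z| - 9698).toNat := by
  rcases le_total z z' with h | h
  · rw [abs_of_nonneg (by omega)] at hd ⊢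
    exact diff_count0 h hd
  · rw [abs_of_nonpos (by omega)] at hd ⊢
    rw [swap_filter]
    have := diff_count0 h (by omega : z - z' ≤ 10000)
    rw [show -(z' - z) - 9698 = z - z' - 9698 by ring]
    exact this

end Pool.Agent.UDR57
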