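import Pool.Agent.UDR57.Dil
import Pool.Agent.UDR57.Dir

/-!
Strip systems, the two colourings, mixing them, and the final count.
-/

set_option autoImplicit false

namespace Pool.Agent.UDR57

open Real Finset

/-! ### From a family of stable sets to a fractional colouring -/

theorem of_family {V ι : Type*} [Fintype V] [DecidableEq V] (Ω : Finset ι)
    (S : ι → Finset V) (Ind : Finset V → Prop) (hS : ∀ ω ∈ Ω, Ind (S ω)) (m : ℝ) (hm : 0 < m)
    (hcov : ∀ u : V, m ≤ ((Ω.filter fun ω => u ∈ S ω).card : ℝ)) :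
    ∃ y : Finset V → ℝ, (∀ I, 0 ≤ y I) ∧ (∀ I, y I ≠ 0 → Ind I) ∧
      (∀ u : V, 1 ≤ ∑ I : Finset V, if u ∈ I then y I else 0) ∧
      (∑ I : Finset V, y I) = (Ω.card : ℝ) / m := by
  classical
  refine ⟨fun I => ((Ω.filter fun ω => S ω = I).card : ℝ) / m, ?_, ?_, ?_, ?_⟩
  · intro I; positivity
  · intro I hI
    have h1 : (Ω.filter fun ω => S ω = I).Nonempty := by
      rw [Finset.nonempty_iff_ne_empty]
      intro h
      simp only [h, Finset.card_empty, Nat.cast_zero, zero_div, ne_eq, not_true] at hI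
    obtain ⟨ω, hω⟩ := h1
    obtain ⟨h2, h3⟩ := Finset.mem_filter.1 hω
    rw [← h3]
    exact hS ω h2
  · intro u
    have h1 : (∑ I : Finset V, if u ∈ I then ((Ω.filter fun ω => S ω = I).card : ℝ) / m else 0) =
        (((Ω.filter fun ω => u ∈ S ω).card : ℕ) : ℝ) / m := by
      have h2 : (Ω.filter fun ω => u ∈ S ω).card =
          ∑ I : Finset V, ((Ω.filter fun ω => u ∈ S ω).filter fun ω => S ω = I).card := by
        apply Finset.card_eq_sum_card_fiberwise
        intro ω _
        exact Finset.mem_coe.2 (Finset.mem_univ _)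
      rw [h2, Nat.cast_sum, Finset.sum_div]
      apply Finset.sum_congr rfl
      intro I _
      by_cases hu : u ∈ I
      · rw [if_pos hu]
        congr 3
        ext ω
        simp only [Finset.mem_filter]
        constructor
        · rintro ⟨h3, h4⟩; exact ⟨⟨h3, h4 ▸ hu⟩, h4⟩
        · rintro ⟨⟨h3, -⟩, h4⟩; exact ⟨h3, h4⟩
      · rw [if_neg hu]
        have : ((Ω.filter fun ω => u ∈ S ω).filter fun ω => S ω = I) = ∅ := by
          rw [Finset.eq_empty_iff_forall_notMem]
          intro ω hω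
          simp only [Finset.mem_filter] at hω
          exact hu (hω.2 ▸ hω.1.2)
        rw [this]
        simp
    rw [h1, le_div_iff₀ hm, one_mul]
    exact hcov u
  · have h2 : Ω.card = ∑ I : Finset V, (Ω.filter fun ω => S ω = I).card := by
      apply Finset.card_eq_sum_card_fiberwise
      intro ω _
      exact Finset.mem_coe.2 (Finset.mem_univ _)
    rw [h2, Nat.cast_sum, Finset.sum_div]

/-! ### Mixing two colour classes -/

section Mix

variable {V : Type*} [DecidableEq V] (adj : V → V → Prop) [DecidableRel adj]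

/-- the colour class `a` of `E` and the vertices of the colour class `b` of `O` far from it -/
def Smix (E : Finset V) (c0 : V → ℕ) (O : Finset V) (c1 : V → ℕ) (a b : ℕ) : Finset V :=
  (E.filter fun v => c0 v = a) ∪
    (O.filter fun v => c1 v = b).filter fun v => ∀ w ∈ E.filter (fun v => c0 v = a), ¬ adj v w

theorem mix_indep (hsymm : ∀ u v, adj u v → adj v u) {E O : Finset V} {c0 c1 : V → ℕ}
    (h0 : ∀ a ∈ E, ∀ b ∈ E, a ≠ b → c0 a = c0 b → ¬ adj a b)
    (h1 : ∀ a ∈ O, ∀ b ∈ O, a ≠ b → c1 a = c1 b → ¬ adj a b) (a b : ℕ) :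
    ∀ u ∈ Smix adj E c0 O c1 a b, ∀ v ∈ Smix adj E c0 O c1 a b, u ≠ v → ¬ adj u v := by
  intro u hu v hv huv
  unfold Smix at hu hv
  rcases Finset.mem_union.1 hu with hu | hu
  · rcases Finset.mem_union.1 hv with hv | hv
    · obtain ⟨hu1, hu2⟩ := Finset.mem_filter.1 hu
      obtain ⟨hv1, hv2⟩ := Finset.mem_filter.1 hv
      exact h0 u hu1 v hv1 huv (hu2.trans hv2.symm)
    · obtain ⟨-, hv2⟩ := Finset.mem_filter.1 hv
      exact fun h => hv2 u hu (hsymm _ _ h)
  · rcases Finset.mem_union.1 hv with hv | hv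
    · obtain ⟨-, hu2⟩ := Finset.mem_filter.1 hu
      exact hu2 v hv
    · obtain ⟨hu0, -⟩ := Finset.mem_filter.1 hu
      obtain ⟨hv0, -⟩ := Finset.mem_filter.1 hv
      obtain ⟨hu1, hu2⟩ := Finset.mem_filter.1 hu0
      obtain ⟨hv1, hv2⟩ := Finset.mem_filter.1 hv0
      exact h1 u hu1 v hv1 huv (hu2.trans hv2.symm)

theorem mix_first {E O : Finset V} {c0 c1 : V → ℕ} {k : ℕ} (hc0 : ∀ a ∈ E, c0 a < k)
    {u : V} (hu : u ∈ E) :
    k ≤ ((range k ×ˢ range k).filter fun p => u ∈ Smix adj E c0 O c1 p.1 p.2).card := by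
  have h : (range k).card ≤
      ((range k ×ˢ range k).filter fun p => u ∈ Smix adj E c0 O c1 p.1 p.2).card := by
    apply Finset.card_le_card_of_injOn (fun b => (c0 u, b))
    · intro b hb
      have hb' : b < k := Finset.mem_range.1 hb
      rw [Finset.mem_coe, Finset.mem_filter]
      refine ⟨Finset.mem_product.2 ⟨Finset.mem_range.2 (hc0 u hu), Finset.mem_range.2 hb'⟩, ?_⟩
      unfold Smix
      exact Finset.mem_union_left _ (Finset.mem_filter.2 ⟨hu, rfl⟩)
    · intro b _ b' _ h
      exact (Prod.ext_iff.1 h).2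
  simpa using h

theorem mix_second {E O : Finset V} {c0 c1 : V → ℕ} {k : ℕ} (hc1 : ∀ a ∈ O, c1 a < k)
    {u : V} (hu : u ∈ O) :
    k ≤ ((range k ×ˢ range k).filter fun p => u ∈ Smix adj E c0 O c1 p.1 p.2).card +
      (E.filter fun v => adj u v).card := by
  have h1 : range k ⊆ ((range k).filter fun a => u ∈ Smix adj E c0 O c1 a (c1 u)) ∪
      (E.filter fun v => adj u v).image c0 := by
    intro a ha
    rw [Finset.mem_union]
    by_cases hfar : ∀ w ∈ E.filter (fun v => c0 v = a), ¬ adj u w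
    · left
      rw [Finset.mem_filter]
      refine ⟨ha, ?_⟩
      unfold Smix
      exact Finset.mem_union_right _ (Finset.mem_filter.2 ⟨Finset.mem_filter.2 ⟨hu, rfl⟩, hfar⟩)
    · right
      push Not at hfar
      obtain ⟨w, hw, hw2⟩ := hfar
      obtain ⟨hw3, hw4⟩ := Finset.mem_filter.1 hw
      exact Finset.mem_image.2 ⟨w, Finset.mem_filter.2 ⟨hw3, hw2⟩, hw4⟩
  have h2 : ((range k).filter fun a => u ∈ Smix adj E c0 O c1 a (c1 u)).card ≤
      ((range k ×ˢ range k).filter fun p => u ∈ Smix adj E c0 O c1 p.1 p.2).card := by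
    apply Finset.card_le_card_of_injOn (fun a => (a, c1 u))
    · intro a ha
      rw [Finset.mem_coe, Finset.mem_filter] at ha
      rw [Finset.mem_coe, Finset.mem_filter]
      exact ⟨Finset.mem_product.2 ⟨ha.1, Finset.mem_range.2 (hc1 u hu)⟩, ha.2⟩
    · intro b _ b' _ h
      exact (Prod.ext_iff.1 h).1
  have h3 := (Finset.card_le_card h1).trans (Finset.card_union_le _ _)
  have h4 : ((E.filter fun v => adj u v).image c0).card ≤ (E.filter fun v => adj u v).card :=
    Finset.card_image_le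
  rw [Finset.card_range] at h3
  omega

end Mix

/-! ### One strip system -/

/-- squared distance -/
def dd {V : Type*} (X Y : V → ℝ) (u v : V) : ℝ := (X u - X v) ^ 2 + (Y u - Y v) ^ 2

theorem dd_symm {V : Type*} (X Y : V → ℝ) (u v : V) : dd X Y u v = dd X Y v u := by
  unfold dd; ring

/-- residue condition -/
def kept (d : Fin 9) (j : ℕ) (x y : ℝ) : Prop := (zz d x y + j) % 18358 < 8660

/-- parity of the strip -/
noncomputable def par (d : Fin 9) (j : ℕ) (x y : ℝ) : ℤ := (zz d x y + j) / 18358 % 2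

theorem colour_strips {V : Type*} [Fintype V] [DecidableEq V] (X Y : V → ℝ) (k : ℕ)
    (hk : ∀ s : Finset V, (∀ a ∈ s, ∀ b ∈ s, dd X Y a b ≤ 1) → s.card ≤ k)
    (d : Fin 9) (j : ℕ) (e : ℤ) (E : Finset V)
    (hE : ∀ v ∈ E, kept d j (X v) (Y v) ∧ par d j (X v) (Y v) = e) :
    ∃ c : V → ℕ, (∀ a ∈ E, c a < k) ∧
      ∀ a ∈ E, ∀ b ∈ E, a ≠ b → c a = c b → ¬ dd X Y a b ≤ 1 := by
  classical
  let z : V → ℤ := fun v => zz d (X v) (Y v)
  let I : V → ℤ := fun v => (z v + j) / 18358
  let T : V → ℝ := fun v => -(X v) * ds d + Y v * dc d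
  let Sx : V → ℝ := fun v => X v * dc d + Y v * ds d
  have hdd : ∀ a b, dd X Y a b = (Sx a - Sx b) ^ 2 + (T a - T b) ^ 2 := by
    intro a b
    have h1 := dcs d
    simp only [Sx, T, dd]
    linear_combination -((X a - X b) ^ 2 + (Y a - Y b) ^ 2) * h1
  have hsame : ∀ a ∈ E, ∀ b ∈ E, I a = I b → (Sx a - Sx b) ^ 2 < 0.75 := by
    intro a ha b hb hI
    have h1 := zz_diff' d (X b) (Y b) (X a) (Y a)
    have h2 : (zz d (X a) (Y a) + j) % 18358 < 8660 := (hE a ha).1
    have h3 : (zz d (X b) (Y b) + j) % 18358 < 8660 := (hE b hb).1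
    have h4 : (zz d (X a) (Y a) + j) / 18358 = (zz d (X b) (Y b) + j) / 18358 := hI
    have h5 : |zz d (X a) (Y a) - zz d (X b) (Y b)| ≤ 8659 := by
      rw [abs_le]; omega
    have h6 : ((|zz d (X a) (Y a) - zz d (X b) (Y b)| : ℤ) : ℝ) ≤ 8659 := by exact_mod_cast h5
    have h7 : |(X a - X b) * dc d + (Y a - Y b) * ds d| < 0.866 := by
      norm_num; linarith
    have h8 : Sx a - Sx b = (X a - X b) * dc d + (Y a - Y b) * ds d := by
      simp only [Sx]; ring
    have h9 := abs_nonneg ((X a - X b) * dc d + (Y a - Y b) * ds d)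
    have h10 : |(X a - X b) * dc d + (Y a - Y b) * ds d| ^ 2 < 0.75 := by
      have h11 : |(X a - X b) * dc d + (Y a - Y b) * ds d| ^ 2 < 0.866 ^ 2 :=
        pow_lt_pow_left₀ h7 h9 two_ne_zero
      norm_num at h11 ⊢
      linarith
    rw [sq_abs] at h10
    rw [h8]
    exact h10
  have hfar : ∀ a ∈ E, ∀ b ∈ E, I a < I b → 1 < dd X Y a b := by
    intro a ha b hb hI
    have h1 := zz_diff d (X a) (Y a) (X b) (Y b)
    have h2 : (zz d (X a) (Y a) + j) % 18358 < 8660 := (hE a ha).1
    have h3 : (zz d (X b) (Y b) + j) % 18358 < 8660 := (hE b hb).1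
    have h4 : (zz d (X a) (Y a) + j) / 18358 % 2 = e := (hE a ha).2
    have h5 : (zz d (X b) (Y b) + j) / 18358 % 2 = e := (hE b hb).2
    have h6 : (zz d (X a) (Y a) + j) / 18358 < (zz d (X b) (Y b) + j) / 18358 := hI
    have h7 : 28057 ≤ |zz d (X b) (Y b) - zz d (X a) (Y a)| := by
      have h7a : 28057 ≤ zz d (X b) (Y b) - zz d (X a) (Y a) := by omega
      exact h7a.trans (le_abs_self _)
    have h8 : (28057 : ℝ) ≤ ((|zz d (X b) (Y b) - zz d (X a) (Y a)| : ℤ) : ℝ) := by
      exact_mod_cast h7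
    have h9 : 2 < |(X b - X a) * dc d + (Y b - Y a) * ds d| := by linarith
    have h10 : Sx b - Sx a = (X b - X a) * dc d + (Y b - Y a) * ds d := by
      simp only [Sx]; ring
    rw [dd_symm, hdd, h10, ← sq_abs ((X b - X a) * dc d + (Y b - Y a) * ds d)]
    nlinarith [sq_nonneg (T b - T a)]
  let r : V → V → Prop := fun a b => I a < I b ∨ (I a = I b ∧ 1 < dd X Y a b ∧ T a < T b)
  have htr : ∀ a ∈ E, ∀ b ∈ E, ∀ c ∈ E, r a b → r b c → r a c := by
    intro a ha b hb c hc hab hbc
    rcases hab with hab | ⟨hab1, hab2, hab3⟩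
    · rcases hbc with hbc | ⟨hbc1, -, -⟩
      · exact Or.inl (hab.trans hbc)
      · exact Or.inl (hbc1 ▸ hab)
    · rcases hbc with hbc | ⟨hbc1, hbc2, hbc3⟩
      · exact Or.inl (hab1 ▸ hbc)
      · refine Or.inr ⟨hab1.trans hbc1, ?_, hab3.trans hbc3⟩
        have e1 := hsame a ha b hb hab1
        have e2 := hsame b hb c hc hbc1
        rw [hdd] at hab2 hbc2
        have e3 : (1 / 2 : ℝ) < T b - T a := by
          by_contra hcon
          push Not at hcon
          have : (T a - T b) ^ 2 ≤ (1 / 2) ^ 2 := by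
            have h0 : 0 ≤ T b - T a := by linarith
            nlinarith
          norm_num at e1 this
          linarith
        have e4 : (1 / 2 : ℝ) < T c - T b := by
          by_contra hcon
          push Not at hcon
          have : (T b - T c) ^ 2 ≤ (1 / 2) ^ 2 := by
            have h0 : 0 ≤ T c - T b := by linarith
            nlinarith
          norm_num at e2 this
          linarith
        rw [hdd]
        nlinarith [sq_nonneg (Sx a - Sx c)]
  have hir : ∀ a ∈ E, ¬ r a a := by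
    intro a _ h
    rcases h with h | ⟨-, -, h⟩
    · exact lt_irrefl _ h
    · exact lt_irrefl _ h
  have hanti : ∀ s ⊆ E, (∀ a ∈ s, ∀ b ∈ s, ¬ r a b) → s.card ≤ k := by
    intro s hs hs2
    apply hk
    intro a ha b hb
    have h1 := hs2 a ha b hb
    have h2 := hs2 b hb a ha
    simp only [r, not_or, not_and, not_lt] at h1 h2
    have hI : I a = I b := le_antisymm h2.1 h1.1
    by_contra hcon
    push Not at hcon
    have h3 := h1.2 hI hcon
    have h4 := h2.2 hI.symm (by rw [dd_symm]; exact hcon)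
    have hT : T a = T b := le_antisymm h4 h3
    have h5 := hsame a (hs ha) b (hs hb) hI
    rw [hdd, hT] at hcon
    norm_num at h5
    nlinarith
  obtain ⟨c, hc1, hc2⟩ := dilworth r E.card E k rfl htr hir hanti
  refine ⟨c, hc1, ?_⟩
  intro a ha b hb hab hcc
  rw [not_le]
  rcases hc2 a ha b hb hab hcc with h | h
  · rcases h with h | ⟨-, h, -⟩
    · exact hfar a ha b hb h
    · exact h
  · rcases h with h | ⟨-, h, -⟩
    · rw [dd_symm]; exact hfar b hb a ha h
    · rw [dd_symm]; exact h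

end Pool.Agent.UDR57
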