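import Pool.Agent.UDR57.Fam

/-!
The final count.
-/

set_option autoImplicit false

namespace Pool.Agent.UDR57

open Real Finset

theorem sum_kept (x y : ℝ) :
    9 * 8660 ≤ ∑ p ∈ (univ : Finset (Fin 9)) ×ˢ range 18358,
      if (zz p.1 x y + p.2) % 18358 < 8660 then 1 else 0 := by
  rw [Finset.sum_product]
  have h : ∀ d : Fin 9, 8660 ≤ ∑ j ∈ range 18358,
      if (zz d x y + (j : ℕ)) % 18358 < 8660 then 1 else 0 := by
    intro d
    have := kept_count (zz d x y)
    rwa [Finset.card_filter] at this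
  have h2 : ∑ d : Fin 9, 8660 ≤ ∑ d : Fin 9, ∑ j ∈ range 18358,
      (if (zz d x y + (j : ℕ)) % 18358 < 8660 then 1 else 0) := Finset.sum_le_sum fun d _ => h d
  have h3 : ∑ d : Fin 9, 8660 = 9 * 8660 := by
    rw [Finset.sum_const, Finset.card_univ, Fintype.card_fin, smul_eq_mul]
  rw [h3] at h2
  exact h2

/-- the two points lie in strips of different parity -/
def crossing (d : Fin 9) (j : ℕ) (x y x' y' : ℝ) : Prop :=
  (zz d x y + j) % 18358 < 8660 ∧ (zz d x' y' + j) % 18358 < 8660 ∧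
    (zz d x y + j) / 18358 % 2 ≠ (zz d x' y' + j) / 18358 % 2

open Classical in
theorem sum_crossing {x y x' y' : ℝ} (h : (x' - x) ^ 2 + (y' - y) ^ 2 ≤ 1) :
    (∑ p ∈ (univ : Finset (Fin 9)) ×ˢ range 18358,
      if crossing p.1 p.2 x y x' y' then 1 else 0) ≤ 302 := by
  rw [Finset.sum_product]
  refine le_trans ?_ (dir_sum h)
  apply Finset.sum_le_sum
  intro d _
  have h1 := diff_count (zz_le d h)
  rw [Finset.card_filter] at h1
  refine le_trans (le_of_eq ?_) h1
  apply Finset.sum_congr rfl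
  intro j _
  exact if_congr Iff.rfl rfl rfl

open Classical in
theorem exists_M : ∃ M : Finset (Fin 9 × ℕ), M.card = 165222 ∧
    (∀ x y : ℝ, 77940 ≤ ∑ p ∈ M, if (zz p.1 x y + p.2) % 18358 < 8660 then 1 else 0) ∧
    (∀ x y x' y' : ℝ, (x' - x) ^ 2 + (y' - y) ^ 2 ≤ 1 →
      (∑ p ∈ M, if crossing p.1 p.2 x y x' y' then 1 else 0) ≤ 302) := by
  refine ⟨univ ×ˢ range 18358, ?_, sum_kept, fun x y x' y' h => sum_crossing h⟩
  rw [Finset.card_product, Finset.card_range, Finset.card_univ, Fintype.card_fin]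

open Classical in
theorem frac_col {V : Type*} [Fintype V] [DecidableEq V] (X Y : V → ℝ) (k : ℕ) (hk0 : 0 < k)
    (hk : ∀ s : Finset V, (∀ a ∈ s, ∀ b ∈ s, dd X Y a b ≤ 1) → s.card ≤ k) :
    ∃ y : Finset V → ℝ, (∀ I, 0 ≤ y I) ∧
      (∀ I, y I ≠ 0 → ∀ u ∈ I, ∀ v ∈ I, u ≠ v → ¬ dd X Y u v ≤ 1) ∧
      (∀ u : V, 1 ≤ ∑ I : Finset V, if u ∈ I then y I else 0) ∧
      (∑ I : Finset V, y I) ≤ 2.145 * (k : ℝ) := by
  let adj : V → V → Prop := fun u v => dd X Y u v ≤ 1
  have hsymm : ∀ u v, adj u v → adj v u := fun u v h => by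
    simp only [adj] at h ⊢
    rwa [dd_symm]
  let E : Fin 9 → ℕ → ℤ → Finset V := fun d j e =>
    univ.filter fun v => kept d j (X v) (Y v) ∧ par d j (X v) (Y v) = e
  have hcol : ∀ (d : Fin 9) (j : ℕ) (e : ℤ), ∃ c : V → ℕ, (∀ a ∈ E d j e, c a < k) ∧
      ∀ a ∈ E d j e, ∀ b ∈ E d j e, a ≠ b → c a = c b → ¬ dd X Y a b ≤ 1 := fun d j e =>
    colour_strips X Y k hk d j e (E d j e) fun v hv => (Finset.mem_filter.1 hv).2
  choose c hc1 hc2 using hcol
  obtain ⟨M, hMcard, hMk, hMc⟩ := exists_M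
  let P : Finset (ℕ × ℕ) := range k ×ˢ range k
  let S1 : Fin 9 × ℕ → ℕ × ℕ → Finset V := fun q p =>
    Smix adj (E q.1 q.2 0) (c q.1 q.2 0) (E q.1 q.2 1) (c q.1 q.2 1) p.1 p.2
  let S2 : Fin 9 × ℕ → ℕ × ℕ → Finset V := fun q p =>
    Smix adj (E q.1 q.2 1) (c q.1 q.2 1) (E q.1 q.2 0) (c q.1 q.2 0) p.1 p.2
  let S : (Fin 9 × ℕ) × ((ℕ × ℕ) × Bool) → Finset V := fun ω =>
    if ω.2.2 = true then S1 ω.1 ω.2.1 else S2 ω.1 ω.2.1
  let Ω : Finset ((Fin 9 × ℕ) × ((ℕ × ℕ) × Bool)) := M ×ˢ (P ×ˢ univ)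
  have hΩ : Ω.card = 330444 * (k * k) := by
    simp only [Ω, P, Finset.card_product, Finset.card_univ, hMcard,
      Finset.card_range, Fintype.card_bool]
    ring
  have hS : ∀ ω ∈ Ω, ∀ u ∈ S ω, ∀ v ∈ S ω, u ≠ v → ¬ dd X Y u v ≤ 1 := by
    intro ω _
    by_cases hb : ω.2.2 = true
    · simp only [S, hb, if_true]
      exact mix_indep adj hsymm (hc2 ω.1.1 ω.1.2 0) (hc2 ω.1.1 ω.1.2 1) ω.2.1.1 ω.2.1.2
    · simp only [S, hb]
      exact mix_indep adj hsymm (hc2 ω.1.1 ω.1.2 1) (hc2 ω.1.1 ω.1.2 0) ω.2.1.1 ω.2.1.2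
  have hcov : ∀ u : V, 154068 * k ≤ (Ω.filter fun ω => u ∈ S ω).card := by
    intro u
    let A1 : Fin 9 × ℕ → ℕ := fun q => (P.filter fun p => u ∈ S1 q p).card
    let A2 : Fin 9 × ℕ → ℕ := fun q => (P.filter fun p => u ∈ S2 q p).card
    have h1 : (Ω.filter fun ω => u ∈ S ω).card = ∑ q ∈ M, (A1 q + A2 q) := by
      rw [Finset.card_filter, Finset.sum_product]
      apply Finset.sum_congr rfl
      intro q _
      simp only [A1, A2]
      rw [Finset.card_filter, Finset.card_filter, ← Finset.sum_add_distrib, Finset.sum_product]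
      apply Finset.sum_congr rfl
      intro p _
      rw [Fintype.sum_bool]
      simp only [S, if_true, Bool.false_eq_true, if_false]
    let N : Finset V := univ.filter fun v => v ≠ u ∧ dd X Y u v ≤ 1
    let K : Fin 9 × ℕ → ℕ := fun q =>
      if (zz q.1 (X u) (Y u) + q.2) % 18358 < 8660 then 1 else 0
    let W : Fin 9 × ℕ → ℕ := fun q => ∑ v ∈ N,
      if crossing q.1 q.2 (X u) (Y u) (X v) (Y v) then 1 else 0
    have hlow : ∀ q ∈ M, 2 * k * K q ≤ (A1 q + A2 q) + W q := by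
      intro q _
      by_cases hkept : (zz q.1 (X u) (Y u) + q.2) % 18358 < 8660
      · simp only [K, hkept, if_true]
        have hpar : par q.1 q.2 (X u) (Y u) = 0 ∨ par q.1 q.2 (X u) (Y u) = 1 := by
          unfold par; omega
        have hWgen : ∀ e e' : ℤ, e ≠ e' → par q.1 q.2 (X u) (Y u) = e →
            ((E q.1 q.2 e').filter fun v => adj u v).card ≤ W q := by
          intro e e' hee hpe
          simp only [W]
          rw [← Finset.card_filter]
          apply Finset.card_le_card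
          intro v hv
          obtain ⟨hv1, hv2⟩ := Finset.mem_filter.1 hv
          obtain ⟨-, hv3, hv4⟩ := Finset.mem_filter.1 hv1
          rw [Finset.mem_filter]
          refine ⟨Finset.mem_filter.2 ⟨Finset.mem_univ _, ?_, hv2⟩, hkept, hv3, ?_⟩
          · rintro rfl
            exact hee (hpe.symm.trans hv4)
          · intro h'
            unfold par at hpe hv4
            exact hee (by rw [← hpe, ← hv4]; exact h')
        rcases hpar with hp | hp
        · have hu : u ∈ E q.1 q.2 0 := Finset.mem_filter.2 ⟨Finset.mem_univ _, hkept, hp⟩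
          have e1 := mix_first adj (O := E q.1 q.2 1) (c1 := c q.1 q.2 1) (hc1 q.1 q.2 0) hu
          have e2 := mix_second adj (E := E q.1 q.2 1) (c0 := c q.1 q.2 1) (hc1 q.1 q.2 0) hu
          have e3 := hWgen 0 1 (by norm_num) hp
          change k ≤ A1 q at e1
          change k ≤ A2 q + _ at e2
          omega
        · have hu : u ∈ E q.1 q.2 1 := Finset.mem_filter.2 ⟨Finset.mem_univ _, hkept, hp⟩
          have e1 := mix_first adj (O := E q.1 q.2 0) (c1 := c q.1 q.2 0) (hc1 q.1 q.2 1) hu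
          have e2 := mix_second adj (E := E q.1 q.2 0) (c0 := c q.1 q.2 0) (hc1 q.1 q.2 1) hu
          have e3 := hWgen 1 0 (by norm_num) hp
          change k ≤ A2 q at e1
          change k ≤ A1 q + _ at e2
          omega
      · simp only [K, hkept, if_false, mul_zero]
        exact Nat.zero_le _
    have hsum : ∑ q ∈ M, 2 * k * K q ≤ ∑ q ∈ M, ((A1 q + A2 q) + W q) :=
      Finset.sum_le_sum hlow
    rw [← Finset.mul_sum, Finset.sum_add_distrib] at hsum
    have hK : 77940 ≤ ∑ q ∈ M, K q := hMk (X u) (Y u)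
    have hW : ∑ q ∈ M, W q ≤ N.card * 302 := by
      simp only [W]
      rw [Finset.sum_comm]
      have h3 : ∀ v ∈ N, (∑ q ∈ M, if crossing q.1 q.2 (X u) (Y u) (X v) (Y v) then 1 else 0) ≤
          302 := by
        intro v hv
        obtain ⟨-, -, hv2⟩ := Finset.mem_filter.1 hv
        apply hMc
        unfold dd at hv2
        nlinarith
      exact Finset.sum_le_card_nsmul N _ 302 h3
    have hN : N.card + 6 ≤ 6 * k := by
      apply nbhd_card X Y k hk u N
      · intro h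
        exact (Finset.mem_filter.1 h).2.1 rfl
      · intro v hv
        obtain ⟨-, -, hv2⟩ := Finset.mem_filter.1 hv
        unfold dd at hv2
        nlinarith
    rw [h1]
    have h2 : 2 * k * 77940 ≤ 2 * k * ∑ q ∈ M, K q := Nat.mul_le_mul_left _ hK
    omega
  have hm : (0 : ℝ) < 154068 * (k : ℝ) := by positivity
  obtain ⟨y, hy1, hy2, hy3, hy4⟩ := of_family Ω S
    (fun I => ∀ u ∈ I, ∀ v ∈ I, u ≠ v → ¬ dd X Y u v ≤ 1) hS (154068 * (k : ℝ)) hm (by
      intro u
      have := hcov u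
      exact_mod_cast this)
  refine ⟨y, hy1, hy2, hy3, ?_⟩
  rw [hy4, hΩ, div_le_iff₀ hm]
  push_cast
  have hk1 : (0 : ℝ) ≤ (k : ℝ) * k := by positivity
  norm_num
  nlinarith

end Pool.Agent.UDR57
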