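import Mathlib

/-!
Dilworth's theorem for a finite set and a relation that is transitive and irreflexive on it
(Galvin's proof).
-/

set_option autoImplicit false

namespace Pool.Agent.UDR57

theorem dilworth {V : Type*} [DecidableEq V] (r : V → V → Prop) (n : ℕ) :
    ∀ (P : Finset V) (k : ℕ), P.card = n →
    (∀ a ∈ P, ∀ b ∈ P, ∀ c ∈ P, r a b → r b c → r a c) → (∀ a ∈ P, ¬ r a a) →
    (∀ s ⊆ P, (∀ a ∈ s, ∀ b ∈ s, ¬ r a b) → s.card ≤ k) →
    ∃ c : V → ℕ, (∀ a ∈ P, c a < k) ∧
      ∀ a ∈ P, ∀ b ∈ P, a ≠ b → c a = c b → (r a b ∨ r b a) := by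
  classical
  induction n using Nat.strong_induction_on with
  | _ n ih =>
  intro P k hn htr hir hanti
  rcases P.eq_empty_or_nonempty with rfl | hP
  · exact ⟨fun _ => 0, by simp, by simp⟩
  -- the number of elements below
  let f : V → ℕ := fun v => (P.filter fun b => r b v).card
  have hf : ∀ u ∈ P, ∀ v ∈ P, r u v → f u < f v := by
    intro u hu v hv huv
    apply Finset.card_lt_card
    rw [Finset.ssubset_iff_of_subset]
    · exact ⟨u, Finset.mem_filter.2 ⟨hu, huv⟩, fun h => hir u hu (Finset.mem_filter.1 h).2⟩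
    · intro b hb
      obtain ⟨hb1, hb2⟩ := Finset.mem_filter.1 hb
      exact Finset.mem_filter.2 ⟨hb1, htr b hb1 u hu v hv hb2 huv⟩
  obtain ⟨a, haP, hamax⟩ := Finset.exists_max_image P f hP
  have ha : ∀ b ∈ P, ¬ r a b := fun b hb hab => absurd (hf a haP b hb hab) (not_lt.2 (hamax b hb))
  let P' := P.erase a
  have hP'P : P' ⊆ P := Finset.erase_subset _ _
  have haP' : a ∉ P' := Finset.notMem_erase _ _
  have hcard' : P'.card < n := by
    rw [← hn]; exact Finset.card_erase_lt_of_mem haP
  -- the width of `P'`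
  let Q : ℕ → Prop := fun m => ∀ s ⊆ P', (∀ a ∈ s, ∀ b ∈ s, ¬ r a b) → s.card ≤ m
  have hQk : Q k := fun s hs h => hanti s (hs.trans hP'P) h
  have hQex : ∃ m, Q m := ⟨k, hQk⟩
  let k' := Nat.find hQex
  have hk'Q : Q k' := Nat.find_spec hQex
  have hk'k : k' ≤ k := Nat.find_min' hQex hQk
  have hmax : ∃ s ⊆ P', (∀ a ∈ s, ∀ b ∈ s, ¬ r a b) ∧ s.card = k' := by
    rcases Nat.eq_zero_or_pos k' with h0 | h0
    · exact ⟨∅, by simp, by simp, by simp [h0]⟩
    · have h1 : ¬ Q (k' - 1) := Nat.find_min hQex (by omega)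
      simp only [Q] at h1
      push Not at h1
      obtain ⟨s, hs, hs2, hs3⟩ := h1
      refine ⟨s, hs, hs2, ?_⟩
      have := hk'Q s hs hs2
      omega
  obtain ⟨c', hc'lt, hc'⟩ := ih P'.card hcard' P' k' rfl
    (fun a ha b hb c hc => htr a (hP'P ha) b (hP'P hb) c (hP'P hc))
    (fun a ha => hir a (hP'P ha)) hk'Q
  -- a maximum antichain meets every colour
  have hmeet : ∀ s ⊆ P', (∀ a ∈ s, ∀ b ∈ s, ¬ r a b) → s.card = k' → ∀ i < k',
      ∃ y ∈ s, c' y = i := by
    intro s hs hs2 hs3 i hi
    have hinj : Set.InjOn c' (s : Set V) := by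
      intro u hu v hv huv
      by_contra hne
      rcases hc' u (hs hu) v (hs hv) hne huv with h | h
      · exact hs2 u hu v hv h
      · exact hs2 v hv u hu h
    have himg : s.image c' = Finset.range k' := by
      apply Finset.eq_of_subset_of_card_le
      · intro j hj
        obtain ⟨u, hu, rfl⟩ := Finset.mem_image.1 hj
        exact Finset.mem_range.2 (hc'lt u (hs hu))
      · rw [Finset.card_range, Finset.card_image_of_injOn hinj, hs3]
    have : i ∈ s.image c' := by rw [himg]; exact Finset.mem_range.2 hi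
    obtain ⟨y, hy, hy2⟩ := Finset.mem_image.1 this
    exact ⟨y, hy, hy2⟩
  -- good elements
  let G : Finset V := P'.filter fun v => ∃ s ⊆ P', (∀ a ∈ s, ∀ b ∈ s, ¬ r a b) ∧ s.card = k' ∧ v ∈ s
  have hx : ∀ i < k', ∃ x ∈ G, c' x = i ∧ ∀ v ∈ G, c' v = i → v = x ∨ r v x := by
    intro i hi
    have hne : (G.filter fun v => c' v = i).Nonempty := by
      obtain ⟨s, hs, hs2, hs3⟩ := hmax
      obtain ⟨y, hy, hyi⟩ := hmeet s hs hs2 hs3 i hi
      exact ⟨y, Finset.mem_filter.2 ⟨Finset.mem_filter.2 ⟨hs hy, s, hs, hs2, hs3, hy⟩, hyi⟩⟩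
    obtain ⟨x, hx, hxmax⟩ := Finset.exists_max_image _ f hne
    obtain ⟨hxG, hxi⟩ := Finset.mem_filter.1 hx
    refine ⟨x, hxG, hxi, ?_⟩
    intro v hv hvi
    by_contra hcon
    push Not at hcon
    have hvP' : v ∈ P' := (Finset.mem_filter.1 hv).1
    have hxP' : x ∈ P' := (Finset.mem_filter.1 hxG).1
    rcases hc' v hvP' x hxP' hcon.1 (hvi.trans hxi.symm) with h | h
    · exact hcon.2 h
    · exact absurd (hf x (hP'P hxP') v (hP'P hvP') h)
        (not_lt.2 (hxmax v (Finset.mem_filter.2 ⟨hv, hvi⟩)))
  have : Nonempty V := ⟨a⟩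
  choose! x hxG hxc hxmax using hx
  have hxP' : ∀ i < k', x i ∈ P' := fun i hi => (Finset.mem_filter.1 (hxG i hi)).1
  have hxanti : ∀ i < k', ∀ j < k', ¬ r (x i) (x j) := by
    intro i hi j hj hij
    obtain ⟨hj1, s, hs, hs2, hs3, hjs⟩ := Finset.mem_filter.1 (hxG j hj)
    obtain ⟨y, hy, hyi⟩ := hmeet s hs hs2 hs3 i hi
    have hyG : y ∈ G := Finset.mem_filter.2 ⟨hs hy, s, hs, hs2, hs3, hy⟩
    rcases hxmax i hi y hyG hyi with h | h
    · rw [← h] at hij
      exact hs2 y hy (x j) hjs hij
    · exact hs2 y hy (x j) hjs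
        (htr y (hP'P (hs hy)) (x i) (hP'P (hxP' i hi)) (x j) (hP'P hj1) h hij)
  by_cases hcase : ∃ i < k', r (x i) a
  · obtain ⟨i, hi, hia⟩ := hcase
    let K : Finset V := insert a (P'.filter fun z => c' z = i ∧ (z = x i ∨ r z (x i)))
    have hKP : K ⊆ P := by
      intro z hz
      rcases Finset.mem_insert.1 hz with rfl | hz
      · exact haP
      · exact hP'P (Finset.mem_filter.1 hz).1
    have hlt : (P \ K).card < n := by
      rw [← hn]
      apply Finset.card_lt_card
      refine ⟨Finset.sdiff_subset, fun h => ?_⟩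
      have := h haP
      rw [Finset.mem_sdiff] at this
      exact this.2 (Finset.mem_insert_self _ _)
    obtain ⟨c'', hc''lt, hc''⟩ := ih (P \ K).card hlt (P \ K) (k' - 1) rfl
      (fun a ha b hb c hc => htr a (Finset.sdiff_subset ha) b (Finset.sdiff_subset hb) c
        (Finset.sdiff_subset hc))
      (fun a ha => hir a (Finset.sdiff_subset ha)) (by
        intro s hs hs2
        have hsP' : s ⊆ P' := by
          intro z hz
          have h1 := Finset.mem_sdiff.1 (hs hz)
          refine Finset.mem_erase.2 ⟨?_, h1.1⟩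
          rintro rfl
          exact h1.2 (Finset.mem_insert_self _ _)
        have h1 := hk'Q s hsP' hs2
        have h2 : s.card ≠ k' := by
          intro h3
          obtain ⟨y, hy, hyi⟩ := hmeet s hsP' hs2 h3 i hi
          have hyG : y ∈ G := Finset.mem_filter.2 ⟨hsP' hy, s, hsP', hs2, h3, hy⟩
          have h4 := Finset.mem_sdiff.1 (hs hy)
          apply h4.2
          exact Finset.mem_insert_of_mem (Finset.mem_filter.2 ⟨hsP' hy, hyi, hxmax i hi y hyG hyi⟩)
        omega)
    refine ⟨fun z => if z ∈ K then k' - 1 else c'' z, ?_, ?_⟩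
    · intro z hz
      by_cases hzK : z ∈ K
      · simp only [hzK, if_true]; omega
      · simp only [hzK, if_false]
        have := hc''lt z (Finset.mem_sdiff.2 ⟨hz, hzK⟩)
        omega
    · intro u hu v hv huv hcc
      by_cases huK : u ∈ K
      · by_cases hvK : v ∈ K
        · -- both in the chain `K`
          have hrel : ∀ z ∈ P'.filter (fun z => c' z = i ∧ (z = x i ∨ r z (x i))), r z a := by
            intro z hz
            obtain ⟨hz1, hz2, hz3⟩ := Finset.mem_filter.1 hz
            rcases hz3 with rfl | hz3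
            · exact hia
            · exact htr z (hP'P hz1) (x i) (hP'P (hxP' i hi)) a haP hz3 hia
          rcases Finset.mem_insert.1 huK with rfl | huK
          · rcases Finset.mem_insert.1 hvK with rfl | hvK
            · exact absurd rfl huv
            · exact Or.inr (hrel v hvK)
          · rcases Finset.mem_insert.1 hvK with rfl | hvK
            · exact Or.inl (hrel u huK)
            · obtain ⟨hu1, hu2, -⟩ := Finset.mem_filter.1 huK
              obtain ⟨hv1, hv2, -⟩ := Finset.mem_filter.1 hvK
              exact hc' u hu1 v hv1 huv (hu2.trans hv2.symm)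
        · simp only [huK, if_true, hvK, if_false] at hcc
          have := hc''lt v (Finset.mem_sdiff.2 ⟨hv, hvK⟩)
          omega
      · by_cases hvK : v ∈ K
        · simp only [huK, if_false, hvK, if_true] at hcc
          have := hc''lt u (Finset.mem_sdiff.2 ⟨hu, huK⟩)
          omega
        · simp only [huK, if_false, hvK] at hcc
          exact hc'' u (Finset.mem_sdiff.2 ⟨hu, huK⟩) v (Finset.mem_sdiff.2 ⟨hv, hvK⟩) huv hcc
  · push Not at hcase
    let A : Finset V := (Finset.range k').image x
    have hAcard : A.card = k' := by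
      rw [Finset.card_image_of_injOn, Finset.card_range]
      intro i hi j hj hij
      have hi' : i < k' := Finset.mem_range.1 hi
      have hj' : j < k' := Finset.mem_range.1 hj
      rw [← hxc i hi', ← hxc j hj', hij]
    have haA : a ∉ A := by
      intro h
      obtain ⟨i, hi, hia⟩ := Finset.mem_image.1 h
      exact haP' (hia ▸ hxP' i (Finset.mem_range.1 hi))
    have hins : (insert a A).card ≤ k := by
      apply hanti
      · intro z hz
        rcases Finset.mem_insert.1 hz with rfl | hz
        · exact haP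
        · obtain ⟨i, hi, rfl⟩ := Finset.mem_image.1 hz
          exact hP'P (hxP' i (Finset.mem_range.1 hi))
      · intro u hu v hv huv
        rcases Finset.mem_insert.1 hu with rfl | hu
        · rcases Finset.mem_insert.1 hv with rfl | hv
          · exact hir _ haP huv
          · obtain ⟨j, hj, rfl⟩ := Finset.mem_image.1 hv
            exact ha _ (hP'P (hxP' j (Finset.mem_range.1 hj))) huv
        · obtain ⟨i, hi, rfl⟩ := Finset.mem_image.1 hu
          rcases Finset.mem_insert.1 hv with rfl | hv
          · exact hcase i (Finset.mem_range.1 hi) huv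
          · obtain ⟨j, hj, rfl⟩ := Finset.mem_image.1 hv
            exact hxanti i (Finset.mem_range.1 hi) j (Finset.mem_range.1 hj) huv
    rw [Finset.card_insert_of_notMem haA, hAcard] at hins
    refine ⟨fun z => if z = a then k' else c' z, ?_, ?_⟩
    · intro z hz
      by_cases hza : z = a
      · simp only [hza, if_true]; omega
      · simp only [hza, if_false]
        have := hc'lt z (Finset.mem_erase.2 ⟨hza, hz⟩)
        omega
    · intro u hu v hv huv hcc
      by_cases hua : u = a
      · have hva : v ≠ a := fun h => huv (hua.trans h.symm)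
        simp only [hua, if_true, hva, if_false] at hcc
        have := hc'lt v (Finset.mem_erase.2 ⟨hva, hv⟩)
        omega
      · by_cases hva : v = a
        · simp only [hua, if_false, hva, if_true] at hcc
          have := hc'lt u (Finset.mem_erase.2 ⟨hua, hu⟩)
          omega
        · simp only [hua, if_false, hva] at hcc
          exact hc' u (Finset.mem_erase.2 ⟨hua, hu⟩) v (Finset.mem_erase.2 ⟨hva, hv⟩) huv hcc

end Pool.Agent.UDR57
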