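import Mathlib

/-!
Plane geometry: six sectors of angle 60 degrees, nine directions.
-/

set_option autoImplicit false

namespace Pool.Agent.UDR57

open Real

theorem sector_core {a1 b1 a2 b2 : ℝ} (h1 : 0 ≤ a1) (h2 : 0 ≤ b1) (h3 : 0 ≤ a2) (h4 : 0 ≤ b2)
    (hA : a1 ^ 2 + a1 * b1 + b1 ^ 2 ≤ 1) (hB : a2 ^ 2 + a2 * b2 + b2 ^ 2 ≤ 1) :
    (a1 - a2) ^ 2 + (a1 - a2) * (b1 - b2) + (b1 - b2) ^ 2 ≤ 1 := by
  rcases le_total a2 a1 with hp | hp
  · rcases le_total b2 b1 with hq | hq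
    · nlinarith [mul_nonneg h3 h4, mul_nonneg h3 h1, mul_nonneg h4 h2, mul_nonneg h3 h2,
        mul_nonneg h1 h4, mul_nonneg (sub_nonneg.2 hp) h3, mul_nonneg (sub_nonneg.2 hp) h4,
        mul_nonneg (sub_nonneg.2 hq) h3, mul_nonneg (sub_nonneg.2 hq) h4]
    · rcases le_total 0 ((a1 - a2) + (b1 - b2)) with hs | hs
      · have e1 : (b1 - b2) * ((a1 - a2) + (b1 - b2)) ≤ 0 :=
          mul_nonpos_of_nonpos_of_nonneg (sub_nonpos.2 hq) hs
        have e2 : (a1 - a2) ^ 2 ≤ a1 ^ 2 := by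
          apply pow_le_pow_left₀ (sub_nonneg.2 hp); linarith
        nlinarith [mul_nonneg h1 h2, sq_nonneg b1]
      · have e1 : (a1 - a2) * ((a1 - a2) + (b1 - b2)) ≤ 0 :=
          mul_nonpos_of_nonneg_of_nonpos (sub_nonneg.2 hp) hs
        have e2 : (b2 - b1) ^ 2 ≤ b2 ^ 2 := by
          apply pow_le_pow_left₀ (sub_nonneg.2 hq); linarith
        nlinarith [mul_nonneg h3 h4, sq_nonneg a2]
  · rcases le_total b2 b1 with hq | hq
    · rcases le_total 0 ((a1 - a2) + (b1 - b2)) with hs | hs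
      · have e1 : (a1 - a2) * ((a1 - a2) + (b1 - b2)) ≤ 0 :=
          mul_nonpos_of_nonpos_of_nonneg (sub_nonpos.2 hp) hs
        have e2 : (b1 - b2) ^ 2 ≤ b1 ^ 2 := by
          apply pow_le_pow_left₀ (sub_nonneg.2 hq); linarith
        nlinarith [mul_nonneg h1 h2, sq_nonneg a1]
      · have e1 : (b1 - b2) * ((a1 - a2) + (b1 - b2)) ≤ 0 :=
          mul_nonpos_of_nonneg_of_nonpos (sub_nonneg.2 hq) hs
        have e2 : (a2 - a1) ^ 2 ≤ a2 ^ 2 := by
          apply pow_le_pow_left₀ (sub_nonneg.2 hp); linarith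
        nlinarith [mul_nonneg h3 h4, sq_nonneg b2]
    · nlinarith [mul_nonneg h3 h4, mul_nonneg h3 h1, mul_nonneg h4 h2, mul_nonneg h3 h2,
        mul_nonneg h1 h4, mul_nonneg (sub_nonneg.2 hp) h1, mul_nonneg (sub_nonneg.2 hp) h2,
        mul_nonneg (sub_nonneg.2 hq) h1, mul_nonneg (sub_nonneg.2 hq) h2]

/-- The six closed sectors in the coordinates `(a, b)`. -/
def Sec (i : Fin 6) (a b : ℝ) : Prop :=
  match i with
  | 0 => 0 ≤ a ∧ 0 ≤ b
  | 1 => a ≤ 0 ∧ 0 ≤ a + b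
  | 2 => 0 ≤ b ∧ a + b ≤ 0
  | 3 => a ≤ 0 ∧ b ≤ 0
  | 4 => 0 ≤ a ∧ a + b ≤ 0
  | 5 => b ≤ 0 ∧ 0 ≤ a + b

theorem sec_cover (a b : ℝ) : ∃ i, Sec i a b := by
  rcases le_total 0 a with ha | ha
  · rcases le_total 0 b with hb | hb
    · exact ⟨0, ha, hb⟩
    · rcases le_total 0 (a + b) with hs | hs
      · exact ⟨5, hb, hs⟩
      · exact ⟨4, ha, hs⟩
  · rcases le_total 0 b with hb | hb
    · rcases le_total 0 (a + b) with hs | hs
      · exact ⟨1, ha, hs⟩
      · exact ⟨2, hb, hs⟩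
    · exact ⟨3, ha, hb⟩

theorem sec_diff {i : Fin 6} {a1 b1 a2 b2 : ℝ} (h1 : Sec i a1 b1) (h2 : Sec i a2 b2)
    (hA : a1 ^ 2 + a1 * b1 + b1 ^ 2 ≤ 1) (hB : a2 ^ 2 + a2 * b2 + b2 ^ 2 ≤ 1) :
    (a1 - a2) ^ 2 + (a1 - a2) * (b1 - b2) + (b1 - b2) ^ 2 ≤ 1 := by
  fin_cases i
  · exact sector_core h1.1 h1.2 h2.1 h2.2 hA hB
  · have := sector_core (a1 := a1 + b1) (b1 := -a1) (a2 := a2 + b2) (b2 := -a2)
      h1.2 (by linarith [h1.1]) h2.2 (by linarith [h2.1]) (by nlinarith) (by nlinarith)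
    nlinarith
  · have := sector_core (a1 := b1) (b1 := -(a1 + b1)) (a2 := b2) (b2 := -(a2 + b2))
      h1.1 (by linarith [h1.2]) h2.1 (by linarith [h2.2]) (by nlinarith) (by nlinarith)
    nlinarith
  · have := sector_core (a1 := -a1) (b1 := -b1) (a2 := -a2) (b2 := -b2)
      (by linarith [h1.1]) (by linarith [h1.2]) (by linarith [h2.1]) (by linarith [h2.2])
      (by nlinarith) (by nlinarith)
    nlinarith
  · have := sector_core (a1 := -(a1 + b1)) (b1 := a1) (a2 := -(a2 + b2)) (b2 := a2)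
      (by linarith [h1.2]) h1.1 (by linarith [h2.2]) h2.1 (by nlinarith) (by nlinarith)
    nlinarith
  · have := sector_core (a1 := -b1) (b1 := a1 + b1) (a2 := -b2) (b2 := a2 + b2)
      (by linarith [h1.1]) h1.2 (by linarith [h2.1]) h2.2 (by nlinarith) (by nlinarith)
    nlinarith

/-- first coordinate in the basis of the sectors -/
noncomputable def al (X Y : ℝ) : ℝ := X - Real.sqrt 3 / 3 * Y

/-- second coordinate in the basis of the sectors -/
noncomputable def be (Y : ℝ) : ℝ := 2 * Real.sqrt 3 / 3 * Y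

theorem quad_al_be (X Y : ℝ) : (al X Y) ^ 2 + al X Y * be Y + (be Y) ^ 2 = X ^ 2 + Y ^ 2 := by
  have h : Real.sqrt 3 ^ 2 = 3 := Real.sq_sqrt (by norm_num)
  unfold al be
  linear_combination (Y ^ 2 / 9 - 2 * Y ^ 2 / 9 + 4 * Y ^ 2 / 9) * h

/-- The neighbourhood of a point is covered by six cliques through that point. -/
theorem nbhd_card {V : Type*} [DecidableEq V] (X Y : V → ℝ) (k : ℕ)
    (hk : ∀ s : Finset V, (∀ a ∈ s, ∀ b ∈ s, (X a - X b) ^ 2 + (Y a - Y b) ^ 2 ≤ 1) → s.card ≤ k)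
    (u : V) (N : Finset V) (hu : u ∉ N)
    (hN : ∀ v ∈ N, (X v - X u) ^ 2 + (Y v - Y u) ^ 2 ≤ 1) : N.card + 6 ≤ 6 * k := by
  classical
  let Ni : Fin 6 → Finset V := fun i =>
    N.filter fun v => Sec i (al (X v - X u) (Y v - Y u)) (be (Y v - Y u))
  have hcov : N ⊆ Finset.univ.biUnion Ni := by
    intro v hv
    obtain ⟨i, hi⟩ := sec_cover (al (X v - X u) (Y v - Y u)) (be (Y v - Y u))
    exact Finset.mem_biUnion.2 ⟨i, Finset.mem_univ _, Finset.mem_filter.2 ⟨hv, hi⟩⟩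
  have hNi : ∀ i, (Ni i).card + 1 ≤ k := by
    intro i
    have h1 : u ∉ Ni i := fun h => hu (Finset.mem_filter.1 h).1
    rw [← Finset.card_insert_of_notMem h1]
    apply hk
    have hpair : ∀ v ∈ Ni i, ∀ w ∈ Ni i, (X v - X w) ^ 2 + (Y v - Y w) ^ 2 ≤ 1 := by
      intro v hv w hw
      obtain ⟨hv1, hv2⟩ := Finset.mem_filter.1 hv
      obtain ⟨hw1, hw2⟩ := Finset.mem_filter.1 hw
      have e1 := hN v hv1
      have e2 := hN w hw1
      rw [← quad_al_be] at e1 e2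
      have e3 := sec_diff hv2 hw2 e1 e2
      have e4 : al (X v - X u) (Y v - Y u) - al (X w - X u) (Y w - Y u) =
          al (X v - X w) (Y v - Y w) := by unfold al; ring
      have e5 : be (Y v - Y u) - be (Y w - Y u) = be (Y v - Y w) := by unfold be; ring
      rw [e4, e5, quad_al_be] at e3
      exact e3
    intro a ha b hb
    rcases Finset.mem_insert.1 ha with rfl | ha
    · rcases Finset.mem_insert.1 hb with rfl | hb
      · simp
      · have := hN b (Finset.mem_filter.1 hb).1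
        nlinarith
    · rcases Finset.mem_insert.1 hb with rfl | hb
      · exact hN a (Finset.mem_filter.1 ha).1
      · exact hpair a ha b hb
  have h2 : N.card ≤ ∑ i, (Ni i).card := (Finset.card_le_card hcov).trans Finset.card_biUnion_le
  have h3 : ∑ i : Fin 6, ((Ni i).card + 1) ≤ ∑ i : Fin 6, k := Finset.sum_le_sum fun i _ => hNi i
  rw [Finset.sum_add_distrib] at h3
  simp only [Finset.sum_const, Finset.card_univ, Fintype.card_fin, smul_eq_mul, mul_one] at h3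
  omega

/-! ### Nine directions -/

theorem pair_bound {a1 a2 n1 n2 m1 m2 : ℝ} (ha : a1 ^ 2 + a2 ^ 2 ≤ 1)
    (hn : n1 ^ 2 + n2 ^ 2 = 1) (hm : m1 ^ 2 + m2 ^ 2 = 1) :
    (|a1 * n1 + a2 * n2| + |a1 * m1 + a2 * m2|) ^ 2 ≤ 2 + 2 * |n1 * m1 + n2 * m2| := by
  have key : ∀ b1 b2 : ℝ, (a1 * b1 + a2 * b2) ^ 2 ≤ b1 ^ 2 + b2 ^ 2 := by
    intro b1 b2
    have h1 : (a1 * b1 + a2 * b2) ^ 2 ≤ (a1 ^ 2 + a2 ^ 2) * (b1 ^ 2 + b2 ^ 2) := by
      nlinarith [sq_nonneg (a1 * b2 - a2 * b1)]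
    have h2 : (a1 ^ 2 + a2 ^ 2) * (b1 ^ 2 + b2 ^ 2) ≤ 1 * (b1 ^ 2 + b2 ^ 2) :=
      mul_le_mul_of_nonneg_right ha (by positivity)
    linarith
  have hplus := key (n1 + m1) (n2 + m2)
  have hminus := key (n1 - m1) (n2 - m2)
  have habs1 := le_abs_self (n1 * m1 + n2 * m2)
  have habs2 := neg_abs_le (n1 * m1 + n2 * m2)
  rcases abs_cases (a1 * n1 + a2 * n2) with ⟨h1, -⟩ | ⟨h1, -⟩ <;>
  rcases abs_cases (a1 * m1 + a2 * m2) with ⟨h2, -⟩ | ⟨h2, -⟩ <;>
  rw [h1, h2] <;> nlinarith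

theorem cos_one_ninth : Real.cos (π / 9) ≤ 0.9397 := by
  have h := Real.cos_three_mul (π / 9)
  rw [show 3 * (π / 9) = π / 3 by ring, Real.cos_pi_div_three] at h
  by_contra hc
  push Not at hc
  nlinarith [mul_pos (sub_pos.2 hc) (sub_pos.2 hc), mul_pos (mul_pos (sub_pos.2 hc) (sub_pos.2 hc)) (sub_pos.2 hc)]

theorem cos_two_ninth : Real.cos (2 * (π / 9)) ≤ 0.7661 := by
  have h := Real.cos_three_mul (2 * (π / 9))
  rw [show 3 * (2 * (π / 9)) = π - π / 3 by ring, Real.cos_pi_sub, Real.cos_pi_div_three] at h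
  by_contra hc
  push Not at hc
  nlinarith [mul_pos (sub_pos.2 hc) (sub_pos.2 hc), mul_pos (mul_pos (sub_pos.2 hc) (sub_pos.2 hc)) (sub_pos.2 hc)]

theorem cos_three_ninth : Real.cos (3 * (π / 9)) ≤ 0.7661 := by
  rw [show 3 * (π / 9) = π / 3 by ring, Real.cos_pi_div_three]; norm_num

theorem cos_four_ninth : Real.cos (4 * (π / 9)) ≤ 0.7661 := by
  refine le_trans ?_ cos_three_ninth
  apply Real.cos_le_cos_of_nonneg_of_le_pi <;> nlinarith [Real.pi_pos]

theorem cos_nonneg_ninth {m : ℝ} (h0 : 0 ≤ m) (h4 : m ≤ 4) : 0 ≤ Real.cos (m * (π / 9)) := by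
  apply Real.cos_nonneg_of_mem_Icc
  constructor <;> nlinarith [Real.pi_pos]

/-- absolute values of the cosines -/
theorem abs_cos_ninth (m : ℕ) (h1 : 1 ≤ m) (h8 : m ≤ 8) :
    |Real.cos (m * (π / 9))| ≤ 0.9397 ∧
      (2 ≤ m → m ≤ 7 → |Real.cos (m * (π / 9))| ≤ 0.7661) := by
  have hrefl : ∀ m : ℝ, Real.cos ((9 - m) * (π / 9)) = - Real.cos (m * (π / 9)) := by
    intro m
    rw [show (9 - m) * (π / 9) = π - m * (π / 9) by ring, Real.cos_pi_sub]
  have c1 := cos_one_ninth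
  have c2 := cos_two_ninth
  have c3 := cos_three_ninth
  have c4 := cos_four_ninth
  have p1 := cos_nonneg_ninth (m := 1) (by norm_num) (by norm_num)
  have p2 := cos_nonneg_ninth (m := 2) (by norm_num) (by norm_num)
  have p3 := cos_nonneg_ninth (m := 3) (by norm_num) (by norm_num)
  have p4 := cos_nonneg_ninth (m := 4) (by norm_num) (by norm_num)
  rw [one_mul] at p1
  have r5 := hrefl 4
  have r6 := hrefl 3
  have r7 := hrefl 2
  have r8 := hrefl 1
  norm_num at r5 r6 r7 r8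
  interval_cases m
  · refine ⟨?_, by omega⟩
    norm_num
    rw [abs_of_nonneg p1]; norm_num at c1; linarith
  · norm_num at c1 c2 ⊢
    rw [abs_of_nonneg p2]
    constructor <;> linarith
  · norm_num at c1 c3 ⊢
    rw [abs_of_nonneg p3]
    constructor <;> linarith
  · norm_num at c1 c4 ⊢
    rw [abs_of_nonneg p4]
    constructor <;> linarith
  · norm_num at c1 c4 ⊢
    rw [r5, abs_neg, abs_of_nonneg p4]
    constructor <;> linarith
  · norm_num at c1 c3 ⊢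
    rw [r6, abs_neg, abs_of_nonneg p3]
    constructor <;> linarith
  · norm_num at c1 c2 ⊢
    rw [r7, abs_neg, abs_of_nonneg p2]
    constructor <;> linarith
  · refine ⟨?_, by omega⟩
    norm_num at c1 ⊢
    rw [r8, abs_neg, abs_of_nonneg p1]
    linarith

end Pool.Agent.UDR57
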